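import Pool.Agent.Lib.MP_436e1a_gt.Alg.Fm

/-! Invariant skew forms on a `G`-set and the associated skew-hermitian form over `k[G]`. -/

namespace Pool.Agent.CSP

open scoped Classical

variable {k G Ω : Type} [Field k] [Group G] [MulAction G Ω]

/-- an invariant skew form with finite support along orbits -/
structure GF (k G Ω : Type) [Field k] [Group G] [MulAction G Ω] where
  β : Ω → Ω → k
  inv : ∀ (g : G) x y, β (g • x) (g • y) = β x y
  skew : ∀ x y, β y x = - β x y
  fin : ∀ x y, {g : G | β x (g • y) ≠ 0}.Finite

namespace GF

variable (F : GF k G Ω)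

/-- bilinear extension -/
noncomputable def b : (Ω →₀ k) →ₗ[k] (Ω →₀ k) →ₗ[k] k :=
  Finsupp.linearCombination k fun x => Finsupp.linearCombination k (F.β x)

theorem b_single (x y : Ω) (c d : k) :
    F.b (Finsupp.single x c) (Finsupp.single y d) = c * d * F.β x y := by
  simp [b, mul_assoc]

theorem b_skew (v w : Ω →₀ k) : F.b w v = - F.b v w := by
  induction v using Finsupp.induction_linear with
  | zero => simp
  | add v v' h h' => simp only [map_add, LinearMap.add_apply, h, h', neg_add]
  | single x c =>
    induction w using Finsupp.induction_linear with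
    | zero => simp
    | add w w' h h' => simp only [map_add, LinearMap.add_apply, h, h', neg_add]
    | single y d =>
      rw [b_single, b_single, F.skew x y]
      ring

theorem b_rho (g : G) (v w : Ω →₀ k) : F.b (rho k G Ω g v) w = F.b v (rho k G Ω g⁻¹ w) := by
  induction v using Finsupp.induction_linear with
  | zero => simp
  | add v v' h h' => simp only [map_add, LinearMap.add_apply, h, h']
  | single x c =>
    induction w using Finsupp.induction_linear with
    | zero => simp
    | add w w' h h' => simp only [map_add, h, h']
    | single y d => rw [rho_single, rho_single, b_single, b_single, ← F.inv g x, smul_inv_smul]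

theorem b_eq_zero {s t : Set Ω} {v w : Ω →₀ k} (hv : v ∈ Finsupp.supported k k s)
    (hw : w ∈ Finsupp.supported k k t) (h : ∀ x ∈ s, ∀ y ∈ t, F.β x y = 0) : F.b v w = 0 := by
  simp only [b, Finsupp.linearCombination_apply, Finsupp.sum, LinearMap.sum_apply,
    LinearMap.smul_apply]
  refine Finset.sum_eq_zero fun x hx => ?_
  rw [Finset.sum_eq_zero fun y hy => ?_, smul_zero]
  rw [h x (hv hx) y (hw hy), smul_zero]

theorem gf_fin (v w : Ω →₀ k) : (Function.support fun g : G => F.b v (rho k G Ω g w)).Finite := by
  induction v using Finsupp.induction_linear with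
  | zero => simp
  | add v v' h h' =>
    simp only [map_add, LinearMap.add_apply]
    exact (h.union h').subset (Function.support_add _ _)
  | single x c =>
    induction w using Finsupp.induction_linear with
    | zero => simp
    | add w w' h h' =>
      simp only [map_add]
      exact (h.union h').subset (Function.support_add _ _)
    | single y d =>
      refine (F.fin x y).subset fun g hg h0 => hg ?_
      simp only [rho_single, b_single, h0, mul_zero]

/-- the form with values in `k[G]`: the coefficient of `g` in `l v w` is `b v (g w)`; the involution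
is induced by `g ↦ g⁻¹` -/
theorem exists_SH : ∃ S : SH (MonoidAlgebra k G) (Ω →₀ k),
    (∀ a g, (S.cj a).coeff g = a.coeff g⁻¹) ∧
      ∀ v w g, (S.l v w).coeff g = F.b v (rho k G Ω g w) := by
  let c : MonoidAlgebra k G →+ MonoidAlgebra k G :=
    { toFun := fun a => .ofCoeff (Finsupp.equivMapDomain (Equiv.inv G) a.coeff)
      map_zero' := rfl
      map_add' := fun a a' => MonoidAlgebra.coeff_injective (Finsupp.ext fun _ => rfl) }
  have hc : ∀ a g, (c a).coeff g = a.coeff g⁻¹ := fun _ _ => rfl
  have hs : ∀ g r, c (.single g r) = .single g⁻¹ r := fun g r =>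
    congrArg MonoidAlgebra.ofCoeff (Finsupp.equivMapDomain_single _ _ _)
  let l : (Ω →₀ k) → (Ω →₀ k) → MonoidAlgebra k G := fun v w =>
    .ofCoeff (Finsupp.ofSupportFinite _ (F.gf_fin v w))
  have hl : ∀ v w g, (l v w).coeff g = F.b v (rho k G Ω g w) := fun _ _ _ => rfl
  have ha : ∀ v v' w, l (v + v') w = l v w + l v' w := fun v v' w =>
    MonoidAlgebra.coeff_injective (Finsupp.ext fun g => by simp [hl])
  refine ⟨⟨c, fun a a' => ?_, fun a => ?_, l, ha, fun a v w => ?_, fun v w => ?_⟩, hc, hl⟩
  · induction a using MonoidAlgebra.induction_linear with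
    | zero => simp
    | add x y h h' => simp only [add_mul, map_add, mul_add, h, h']
    | single g r =>
      induction a' using MonoidAlgebra.induction_linear with
      | zero => simp
      | add x y h h' => simp only [add_mul, map_add, mul_add, h, h']
      | single g' r' => simp only [MonoidAlgebra.single_mul_single, hs, mul_inv_rev, mul_comm r]
  · exact MonoidAlgebra.coeff_injective (Finsupp.ext fun g => by rw [hc, hc, inv_inv])
  · induction a using MonoidAlgebra.induction_linear with
    | zero => exact MonoidAlgebra.coeff_injective (Finsupp.ext fun g => by simp [hl])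
    | add x y h h' => rw [add_smul, ha, h, h', add_mul]
    | single g r =>
      refine MonoidAlgebra.coeff_injective (Finsupp.ext fun h => ?_)
      obtain ⟨h, rfl⟩ := Group.mulLeft_bijective g |>.2 h
      rw [MonoidAlgebra.coeff_single_mul_mul, hl, hl, single_smul, map_smul, LinearMap.smul_apply,
        b_rho, ← Module.End.mul_apply, ← map_mul, inv_mul_cancel_left, smul_eq_mul]
  · refine MonoidAlgebra.coeff_injective (Finsupp.ext fun g => ?_)
    change F.b w (rho k G Ω g v) = -F.b v (rho k G Ω g⁻¹ w)
    rw [b_skew, b_rho]

end GF

end Pool.Agent.CSP
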