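import Pool.Agent.Lib.MP_436e1a_gt.Alg.Wd
import Pool.Agent.Lib.MP_436e1a_gt.Alg.Gf

/-! Forms on a set lying over the vertices of the tree of a free product: components. -/

namespace Pool.Agent.CSP

open Monoid Monoid.CoprodI Finsupp
open scoped Classical

variable {ι : Type} {H : ι → Type} [∀ i, Group (H i)] {k Ω : Type} [Field k]
  [MulAction (CoprodI H) Ω]

/-- every point of `Ω` lies over a vertex `pos x * H (ty x)`, and the form vanishes on points over
different vertices -/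
structure Sys (k : Type) (H : ι → Type) (Ω : Type) [Field k] [∀ i, Group (H i)]
    [MulAction (CoprodI H) Ω] extends GF k (CoprodI H) Ω where
  ty : Ω → ι
  pos : Ω → CoprodI H
  nm : ∀ x, ¬ St (ty x) (pos x)⁻¹
  ty_smul : ∀ (g : CoprodI H) x, ty (g • x) = ty x
  pos_smul : ∀ (g : CoprodI H) x, pos (g • x) = nf (ty x) (g * pos x)
  loc : ∀ x y, β x y ≠ 0 → ty x = ty y ∧ pos x = pos y

theorem nf_one (i : ι) : nf i (1 : CoprodI H) = 1 := nf_eq_self (by simpa using not_St_one)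

theorem St.on_nf {i j : ι} {w : CoprodI H} (h : St j w) : On j i (nf i w) := by
  by_cases h1 : nf i w = 1
  · obtain ⟨a, rfl⟩ := nf_eq_one.1 h1
    refine Or.inr ⟨h1, (St_of ?_).unique h⟩
    rintro rfl
    exact not_St_one (by simpa using h)
  · obtain ⟨j', hj⟩ := exists_St h1
    have h2 : St j' (nf i w * of (hd i w⁻¹)⁻¹) := hj.mul fun j1 h3 h4 => by
      by_cases h5 : (hd i w⁻¹)⁻¹ = 1
      · exact not_St_one (by simpa [h5] using h4)
      · exact not_St_nf i w ((St_of h5).unique h4 ▸ h3)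
    have h3 : nf i w * of (hd i w⁻¹)⁻¹ = w := by simp [nf]
    rw [h3] at h2
    exact Or.inl (h2.unique h ▸ hj)

theorem rho_rho {G : Type} [Group G] [MulAction G Ω] (g g' : G) (v : Ω →₀ k) :
    rho k G Ω g (rho k G Ω g' v) = rho k G Ω (g * g') v := by
  rw [map_mul, Module.End.mul_apply]

namespace Sys

variable (F : Sys k H Ω)

/-- vectors supported over the vertices satisfying `P` -/
noncomputable def W (P : ι → CoprodI H → Prop) : Submodule k (Ω →₀ k) :=
  supported k k {x | P (F.ty x) (F.pos x)}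

/-- the part over the vertices satisfying `P` -/
noncomputable def fl (P : ι → CoprodI H → Prop) : (Ω →₀ k) →ₗ[k] Ω →₀ k :=
  flt {x | P (F.ty x) (F.pos x)}

/-- the vertex `w * H i` -/
def At (i : ι) (w : CoprodI H) (j : ι) (v : CoprodI H) : Prop := j = i ∧ v = nf i w

/-- the component over `w * H i`, moved to the base vertex -/
noncomputable def cmp (i : ι) (w : CoprodI H) : (Ω →₀ k) →ₗ[k] Ω →₀ k :=
  F.fl (At i 1) ∘ₗ rho k (CoprodI H) Ω w⁻¹

variable {F} {P Q : ι → CoprodI H → Prop} {i j : ι} {g w : CoprodI H} {u v z c : Ω →₀ k}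

theorem W_mono (hv : v ∈ F.W P) (h : ∀ j w, ¬ St j w⁻¹ → P j w → Q j w) : v ∈ F.W Q :=
  supported_mono (fun x hx => h _ _ (F.nm x) hx) hv

theorem W_rho (hv : v ∈ F.W P) (h : ∀ j w, ¬ St j w⁻¹ → P j w → Q j (nf j (g * w))) :
    rho k (CoprodI H) Ω g v ∈ F.W Q :=
  rho_mem hv fun x hx => by
    simp only [Set.mem_ofPred_eq, F.ty_smul, F.pos_smul]
    exact h _ _ (F.nm x) hx

theorem At_rho (hv : v ∈ F.W (At i w)) (g : CoprodI H) :
    rho k (CoprodI H) Ω g v ∈ F.W (At i (g * w)) :=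
  W_rho hv fun j w' _ h => by
    obtain ⟨rfl, rfl⟩ := h
    exact ⟨rfl, nf_mul_nf _ _⟩

theorem At_rho' (hv : v ∈ F.W (At i 1)) (g : CoprodI H) :
    rho k (CoprodI H) Ω g v ∈ F.W (At i g) := by simpa using At_rho hv g

theorem orth (hv : v ∈ F.W P) (hz : z ∈ F.W Q) (h : ∀ j w, ¬ St j w⁻¹ → P j w → ¬ Q j w) :
    F.b v z = 0 :=
  F.b_eq_zero hv hz fun x hx y hy => by
    by_contra h0
    obtain ⟨h1, h2⟩ := F.loc x y h0
    refine h _ _ (F.nm x) hx ?_
    rw [h2, h1]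
    exact hy

theorem mem_top (v : Ω →₀ k) : v ∈ F.W fun _ _ => True := by simp [W]

theorem fl_mem (hv : v ∈ F.W Q) : F.fl P v ∈ F.W fun j w => P j w ∧ Q j w := flt_mem hv

theorem fl_mem' (v : Ω →₀ k) : F.fl P v ∈ F.W P := W_mono (fl_mem (mem_top v)) fun _ _ _ h => h.1

theorem fl_add (P : ι → CoprodI H → Prop) (v : Ω →₀ k) :
    F.fl P v + F.fl (fun j w => ¬ P j w) v = v := flt_add_compl _ v

theorem fl_apply (v : Ω →₀ k) (x : Ω) :
    F.fl P v x = if P (F.ty x) (F.pos x) then v x else 0 := flt_apply _ _ _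

theorem fl_eq_zero (hv : v ∈ F.W Q) (h : ∀ j w, ¬ St j w⁻¹ → Q j w → ¬ P j w) : F.fl P v = 0 :=
  flt_eq_zero hv fun x hx => h _ _ (F.nm x) hx

theorem b_fl_pos (hc : c ∈ F.W (At i w)) (h : P i (nf i w)) : F.b (F.fl P z) c = F.b z c := by
  conv_rhs => rw [← fl_add (F := F) P z]
  rw [map_add, LinearMap.add_apply, orth (fl_mem' (P := fun j w => ¬ P j w) z) hc, add_zero]
  rintro j w' _ h1 ⟨rfl, rfl⟩
  exact h1 h

theorem b_fl_neg (hc : c ∈ F.W (At i w)) (h : ¬ P i (nf i w)) : F.b (F.fl P z) c = 0 := by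
  refine orth (fl_mem' z) hc ?_
  rintro j w' _ h1 ⟨rfl, rfl⟩
  exact h h1

theorem cmp_mem (i : ι) (w : CoprodI H) (z : Ω →₀ k) : F.cmp i w z ∈ F.W (At i 1) := fl_mem' _

theorem b_cmp (hc : c ∈ F.W (At i 1)) :
    F.b (F.cmp i w z) c = F.b z (rho k (CoprodI H) Ω w c) := by
  rw [cmp, LinearMap.comp_apply, b_fl_pos hc ⟨rfl, rfl⟩, F.b_rho, inv_inv]

theorem cmp_rho : F.cmp i w (rho k (CoprodI H) Ω g z) = F.cmp i (g⁻¹ * w) z := by
  simp only [cmp, LinearMap.comp_apply, rho_rho, mul_inv_rev, inv_inv]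

theorem cmp_eq_zero (hz : z ∈ F.W P) (h : ¬ P i (nf i w)) : F.cmp i w z = 0 := by
  refine fl_eq_zero (Q := fun j v => P j (nf j (w * v))) (W_rho hz fun j v hv h1 => ?_) ?_
  · rwa [nf_mul_nf, mul_inv_cancel_left, nf_eq_self hv]
  · rintro j v _ h1 ⟨rfl, rfl⟩
    rw [nf_mul_nf, mul_one] at h1
    exact h h1

theorem cmp_fl (h : P i (nf i w)) : F.cmp i w (F.fl P z) = F.cmp i w z := by
  conv_rhs => rw [← fl_add (F := F) P z]
  rw [map_add, cmp_eq_zero (fl_mem' (P := fun j w => ¬ P j w) z) (not_not.2 h), add_zero]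

theorem cmp_one (hz : z ∈ F.W (At i 1)) : F.cmp i 1 z = z := by
  rw [cmp, LinearMap.comp_apply, inv_one, map_one]
  exact flt_eq_self hz

theorem rho_cmp : rho k (CoprodI H) Ω w (F.cmp i w z) = F.fl (At i w) z := by
  conv_lhs => rw [← fl_add (F := F) (At i w) z]
  have h1 := At_rho (fl_mem' (F := F) (P := At i w) z) w⁻¹
  rw [inv_mul_cancel] at h1
  rw [map_add, cmp_eq_zero (fl_mem' (P := fun j v => ¬ At i w j v) z) (not_not.2 ⟨rfl, rfl⟩),
    add_zero, cmp, LinearMap.comp_apply, fl, flt_eq_self h1, rho_rho, mul_inv_cancel, map_one,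
    Module.End.one_apply]

/-- beyond the edge `w` only the first vertex can meet a vector of depth at most `len w` -/
theorem near {N : ℕ} (hz : z ∈ F.W fun _ v => len v ≤ N) (hw : ¬ St i w⁻¹) (hN : N ≤ len w) :
    F.b z (rho k (CoprodI H) Ω w (F.fl (On i) v)) =
      F.b z (rho k (CoprodI H) Ω w (F.fl (At i 1) v)) := by
  have h1 : F.fl (At i 1) (F.fl (On i) v) = F.fl (At i 1) v := by
    have := cmp_fl (F := F) (P := On i) (i := i) (w := 1) (z := v) (Or.inr ⟨nf_one i, rfl⟩)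
    simpa [cmp] using this
  rw [← fl_add (F := F) (At i 1) (F.fl (On i) v), map_add, map_add, h1, add_eq_left]
  refine orth hz (W_rho (Q := fun _ v => N < len v) (fl_mem (fl_mem' v)) ?_) fun _ _ _ h => not_lt.2 h
  rintro j w' h2 ⟨h3, h4⟩
  obtain ⟨h5, h6⟩ := far h2 (g := w) fun j' h5 h6 => hw (h6.unique h4 ▸ h5)
  rw [nf_eq_self h5, h6]
  have : len w' ≠ 0 := fun h7 => by
    obtain rfl := len_eq_zero.1 h7
    exact h3 ⟨(h4.resolve_left not_St_one).2, (nf_one i).symm⟩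
  omega

/-- off the side `i`, a word ending in `H i` acts without cancellation -/
theorem far' (hg : St i g⁻¹) (hw : ¬ St j w⁻¹) (h : ¬ On i j w) :
    ¬ St j (g * w)⁻¹ ∧ len (g * w) = len g + len w :=
  far hw fun _ h1 h2 => h (h1.unique hg ▸ h2)

theorem branch {L : ℕ} (hz : z ∈ F.W fun _ v => len v ≤ L) (hg : St i g⁻¹) :
    F.fl (fun j v => ¬ On i j v) (rho k (CoprodI H) Ω g⁻¹ z) ∈
      F.W fun j v => ¬ On i j v ∧ len g + len v ≤ L := by
  refine W_mono (fl_mem (W_rho (Q := fun j v => len (nf j (g * v)) ≤ L) hz fun j v hv h => ?_)) ?_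
  · rwa [nf_mul_nf, mul_inv_cancel_left, nf_eq_self hv]
  · rintro j v hv ⟨h1, h2⟩
    obtain ⟨h3, h4⟩ := far' hg hv h1
    rw [nf_eq_self h3, h4] at h2
    exact ⟨h1, h2⟩

/-- depth at most `L`, and all components of depth `L` lie in `U` -/
noncomputable def Good (F : Sys k H Ω) (L : ℕ) (U : Submodule k (Ω →₀ k)) : Submodule k (Ω →₀ k) :=
  (F.W fun _ v => len v ≤ L) ⊓ ⨅ (j : ι) (w : CoprodI H) (_ : ¬ St j w⁻¹) (_ : len w = L),
    U.comap (F.cmp j w)

theorem mem_good {L : ℕ} {U : Submodule k (Ω →₀ k)} : v ∈ F.Good L U ↔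
    (v ∈ F.W fun _ v => len v ≤ L) ∧ ∀ j w, ¬ St j w⁻¹ → len w = L → F.cmp j w v ∈ U := by
  simp [Good, Submodule.mem_iInf]

theorem shallow {L : ℕ} {U : Submodule k (Ω →₀ k)} (hv : v ∈ F.W fun _ v => len v < L) :
    v ∈ F.Good L U :=
  mem_good.2 ⟨W_mono hv fun _ _ _ h => h.le, fun j w h1 h2 => by
    rw [cmp_eq_zero hv (by rw [nf_eq_self h1, h2]; exact lt_irrefl _)]
    exact U.zero_mem⟩

theorem tidy {L : ℕ} {U : Submodule k (Ω →₀ k)} (hu : u ∈ F.W (At i 1)) (hU : u ∈ U)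
    (hc : c ∈ F.W (At i 1)) (huc : F.b u c = 1) (hz : z ∈ F.Good L U)
    {t : MonoidAlgebra k (CoprodI H)} (ht : ∀ d, L ≤ len (nf i d) →
      t.coeff d = if St i d⁻¹ then 0 else - F.b z (rho k (CoprodI H) Ω d c)) :
    z + t • u ∈ F.Good L (U ⊓ LinearMap.ker (F.b.flip c)) := by
  obtain ⟨hz1, hz2⟩ := mem_good.1 hz
  refine mem_good.2 ⟨add_mem hz1 (lam_smul_mem fun d hd => W_mono (At_rho' hu d) ?_), ?_⟩
  · rintro j v _ ⟨rfl, rfl⟩
    by_contra h
    rw [ht d (not_le.1 h).le, orth hz1 (At_rho' hc d), neg_zero, ite_self] at hd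
    · exact hd rfl
    · rintro j' v h1 h2 ⟨rfl, rfl⟩
      exact h h2
  · intro j w h1 h2
    rw [map_add, map_lam_smul (F.cmp j w) w, cmp_rho, inv_mul_cancel]
    · by_cases hj : j = i
      · subst hj
        rw [cmp_one hu]
        refine ⟨add_mem (hz2 j w h1 h2) (U.smul_mem _ hU), ?_⟩
        have := ht w (by rw [nf_eq_self h1, h2])
        rw [if_neg h1] at this
        simp [this, huc, b_cmp hc]
      · rw [cmp_eq_zero hu fun h => hj h.1, smul_zero, add_zero]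
        exact ⟨hz2 j w h1 h2, orth (cmp_mem j w z) hc fun _ _ _ h3 h4 => hj (h3.1.symm.trans h4.1)⟩
    · intro d hd hdw
      refine cmp_eq_zero (At_rho' hu d) ?_
      rintro ⟨rfl, h3⟩
      rw [nf_eq_self h1] at h3
      rw [ht d (by rw [← h3, h2])] at hd
      by_cases h4 : St j d⁻¹
      · exact hd (if_pos h4)
      · exact hdw (by rw [h3, nf_eq_self h4])

end Sys

end Pool.Agent.CSP
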