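import Pool.Agent.Lib.MP_436e1a_gt.Alg.Cm

/-! The Eichler move that lowers the span of the top components. -/

namespace Pool.Agent.CSP

open Monoid Monoid.CoprodI Finsupp
open scoped Classical

variable {ι : Type} {H : ι → Type} [∀ i, Group (H i)] {k Ω : Type} [Field k]
  [MulAction (CoprodI H) Ω]

namespace Sys

variable {F : Sys k H Ω} {i j : ι} {g w η : CoprodI H} {u v z c a y : Ω →₀ k} {L n M : ℕ}
  {U : Submodule k (Ω →₀ k)}

theorem b_inv (F : Sys k H Ω) (g : CoprodI H) (v z : Ω →₀ k) :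
    F.b v (rho k (CoprodI H) Ω g⁻¹ z) = - F.b z (rho k (CoprodI H) Ω g v) := by
  rw [← F.b_rho, F.b_skew]

/-- the pairing of a vector of small depth with the translate of a branch -/
theorem key (hz : z ∈ F.W fun _ v => len v ≤ L) (hw : ¬ St i w⁻¹) (hL : L ≤ len w)
    (h0 : F.b z (rho k (CoprodI H) Ω (w * η⁻¹) y) = 0) :
    F.b z (rho k (CoprodI H) Ω w (F.fl (fun j v => ¬ On i j v) (rho k (CoprodI H) Ω η⁻¹ y))) =
      - F.b z (rho k (CoprodI H) Ω w (F.cmp i η y)) := by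
  rw [← rho_rho, ← fl_add (F := F) (On i) (rho k (CoprodI H) Ω η⁻¹ y), map_add, map_add,
    near hz hw hL] at h0
  exact eq_neg_of_add_eq_zero_right h0

theorem deep (hz : z ∈ F.W fun _ v => len v ≤ L) (ha : a ∈ F.W fun j v => ¬ On i j v)
    (hg : St i g⁻¹) (hL : L < len g) : F.b z (rho k (CoprodI H) Ω g a) = 0 := by
  refine orth hz (W_rho (Q := fun _ v => L < len v) ha fun j v hv h => ?_) fun _ _ _ h => not_lt.2 h
  obtain ⟨h1, h2⟩ := far' hg hv h
  rw [nf_eq_self h1, h2]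
  omega

theorem deep' (hz : z ∈ F.W fun _ v => len v ≤ L) (hc : c ∈ F.W (At i 1))
    (hL : L < len (nf i g)) : F.b z (rho k (CoprodI H) Ω g c) = 0 := by
  refine orth hz (At_rho' hc g) ?_
  rintro j v _ h ⟨rfl, rfl⟩
  omega

/-- translates of a branch of a good vector are good -/
theorem good_branch (hy : y ∈ F.Good L U) (hη : St i η⁻¹) (hn : len η = n + 1)
    (hg : len (nf i g) ≤ n) :
    rho k (CoprodI H) Ω g (F.fl (fun j v => ¬ On i j v) (rho k (CoprodI H) Ω η⁻¹ y)) ∈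
      F.Good L U := by
  obtain ⟨hy1, hy2⟩ := mem_good.1 hy
  have ha := branch hy1 hη
  by_cases h1 : len g ≤ n
  · refine shallow (W_rho ha fun j v _ h => ?_)
    have := (len_nf_le j _).trans (len_mul_le g v)
    omega
  have h2 : St i g⁻¹ := by
    by_contra h2
    exact h1 (nf_eq_self h2 ▸ hg)
  have h3 := len_nf h2
  refine mem_good.2 ⟨W_rho ha fun j v _ h => ?_, fun j w hw hL => ?_⟩
  · have := (len_nf_le j _).trans (len_mul_le g v)
    omega
  rw [cmp_rho]
  by_cases h4 : On i j (nf j (g⁻¹ * w))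
  · rw [cmp_eq_zero (fl_mem' _) (not_not.2 h4)]
    exact U.zero_mem
  obtain ⟨h5, h6⟩ := far' h2 (not_St_nf _ _) h4
  have h7 : g * nf j (g⁻¹ * w) = w := by
    rw [← nf_eq_self h5, nf_mul_nf, mul_inv_cancel_left, nf_eq_self hw]
  have h8 : nf j (g⁻¹ * w) = g⁻¹ * w := eq_inv_mul_of_mul_eq h7
  obtain ⟨h9, h10⟩ := far' hη (not_St_nf _ _) h4
  rw [cmp_fl (P := fun j v => ¬ On i j v) h4, cmp_rho, inv_inv]
  rw [h7] at h6
  rw [h8] at h6 h9 h10
  exact hy2 j _ h9 (by omega)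

/-- the coefficients of the correction term -/
theorem corr (ha : a ∈ F.W fun j v => ¬ On i j v ∧ len v ≤ M) (hc : c ∈ F.W (At i 1))
    (hg : len (nf i g) ≤ n) {e : CoprodI H} (he : n + 1 + M ≤ len (nf i (g * e))) :
    (if e ≠ 1 ∧ ¬ St i e ∧ ¬ St i e⁻¹ ∧ M ≤ len e then - F.b a (rho k (CoprodI H) Ω e c)
      else 2⁻¹ * F.b a (rho k (CoprodI H) Ω e a)) =
      if St i (g * e)⁻¹ then 0 else - F.b a (rho k (CoprodI H) Ω e c) := by
  have ha1 : a ∈ F.W fun j v => ¬ On i j v := W_mono ha fun _ _ _ h => h.1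
  have ha2 : a ∈ F.W fun _ v => len v ≤ M := W_mono ha fun _ _ _ h => h.2
  have hB : St i e⁻¹ → M < len e → F.b a (rho k (CoprodI H) Ω e a) = 0 := deep ha2 ha1
  have hB' : St i e → M < len e → F.b a (rho k (CoprodI H) Ω e a) = 0 := fun h h' => by
    rw [← inv_inv e, b_inv, deep ha2 ha1 (by rwa [inv_inv]) (by rwa [len_inv]), neg_zero]
  have h0 := len_nf_le i e
  have h1 : e ≠ 1 := by
    rintro rfl
    rw [mul_one] at he
    omega
  by_cases hE : St i g⁻¹
  swap
  · have h2 := len_nf_mul_le i g e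
    rw [nf_eq_self hE] at hg
    rw [deep' ha2 hc (by omega), neg_zero, ite_self]
    split_ifs with h3
    · rfl
    by_cases h4 : St i e
    · rw [hB' h4 (by omega), mul_zero]
    by_cases h5 : St i e⁻¹
    · rw [hB h5 (by omega), mul_zero]
    exact (h3 ⟨h1, h4, h5, by omega⟩).elim
  have h2 := len_nf hE
  by_cases h4 : St i e
  · have h5 : len (nf i (g * e)) ≤ len (nf i g) + len e := by
      have : g * e = nf i g * (of (hd i g⁻¹)⁻¹ * e) := by simp [nf, mul_assoc]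
      rw [this]
      exact (len_nf_le _ _).trans ((len_mul_le _ _).trans (by gcongr; exact len_of_mul_le h4 _))
    rw [if_neg fun h => h.2.1 h4, hB' h4 (by omega), mul_zero, orth ha1 (At_rho' hc e), neg_zero,
      ite_self]
    rintro j v _ h ⟨rfl, rfl⟩
    exact h h4.on_nf
  have h5 : ∀ j, St j e⁻¹ → St j (g * e)⁻¹ := fun j h => by
    rw [mul_inv_rev]
    exact h.mul fun j' h6 h7 => h4 (by rwa [inv_inv, h7.unique hE] at h6)
  have h6 := len_mul_le g e
  by_cases h7 : St i e⁻¹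
  · have := len_nf (h5 i h7)
    rw [if_neg fun h => h.2.2.1 h7, if_pos (h5 i h7), hB h7 (by omega), mul_zero]
  · obtain ⟨j, hj⟩ := exists_St (inv_ne_one.2 h1)
    have := len_nf_le i (g * e)
    rw [if_pos ⟨h1, h4, h7, by omega⟩, if_neg fun h => h7 (by rwa [(h5 j hj).unique h] at hj)]

/-- the self-pairing of a branch at long words -/
theorem self_branch (hy : ∀ g, g ≠ 1 → F.b y (rho k (CoprodI H) Ω g y) = 0)
    (ha : F.fl (fun j v => ¬ On i j v) y ∈ F.W fun _ v => len v ≤ M) {e : CoprodI H} (h1 : e ≠ 1)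
    (h2 : ¬ St i e) (h3 : ¬ St i e⁻¹) (h4 : M ≤ len e) :
    F.b (F.fl (fun j v => ¬ On i j v) y) (rho k (CoprodI H) Ω e (F.fl (fun j v => ¬ On i j v) y)) =
      - F.b (F.fl (fun j v => ¬ On i j v) y) (rho k (CoprodI H) Ω e (F.fl (At i 1) y)) +
        F.b (F.fl (fun j v => ¬ On i j v) y) (rho k (CoprodI H) Ω e⁻¹ (F.fl (At i 1) y)) := by
  have h5 := hy e h1
  have h6 : F.b (F.fl (On i) y) (rho k (CoprodI H) Ω e (F.fl (On i) y)) = 0 := by
    refine orth (fl_mem' y) (W_rho (Q := fun j v => ¬ On i j v) (fl_mem' y) fun j v hv h => ?_)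
      fun _ _ _ => not_not.2
    have h7 : ∀ j', St j' e⁻¹ → ¬ On j' j v := fun j' h7 h8 => h3 (h8.unique h ▸ h7)
    obtain ⟨j', hj⟩ := exists_St h1
    rw [nf_eq_self (far hv h7).1]
    exact fun h8 => h2 (h8.unique (Or.inl (hj.mul fun j1 h9 h10 => h7 j1 h9 (Or.inl h10))) ▸ hj)
  rw [← near ha h3 h4, ← near ha (by rwa [inv_inv]) (by rwa [len_inv]), b_inv]
  rw [← fl_add (F := F) (On i) y] at h5
  simp only [map_add, LinearMap.add_apply, h6] at h5
  linear_combination h5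

end Sys

end Pool.Agent.CSP
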