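import Mathlib

/-! Skew-hermitian forms, and the permutation module of a `G`-set over `k[G]`. -/

namespace Pool.Agent.CSP

open scoped Classical

/-- a skew-hermitian form over a ring with involution -/
structure SH (R V : Type) [Ring R] [AddCommGroup V] [Module R V] where
  cj : R →+ R
  cj_mul : ∀ a b, cj (a * b) = cj b * cj a
  cj_cj : ∀ a, cj (cj a) = a
  l : V → V → R
  add_left : ∀ v v' w, l (v + v') w = l v w + l v' w
  smul_left : ∀ (a : R) v w, l (a • v) w = a * l v w
  skew : ∀ v w, l w v = - cj (l v w)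

namespace SH

variable {R V : Type} [Ring R] [AddCommGroup V] [Module R V] (F : SH R V)

theorem cj_one : F.cj 1 = 1 := by
  have h := F.cj_mul (F.cj 1) 1
  rwa [mul_one, F.cj_cj, mul_one, eq_comm] at h

theorem add_right (v w w' : V) : F.l v (w + w') = F.l v w + F.l v w' := by
  rw [F.skew, F.add_left, map_add, F.skew w v, F.skew w' v, neg_add]

theorem smul_right (a : R) (v w : V) : F.l v (a • w) = F.l v w * F.cj a := by
  rw [F.skew, F.smul_left, F.cj_mul, F.skew w v, neg_mul]

/-- Eichler transformation -/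
theorem eichler {u a : V} {s : R} (hu : F.l u u = 0) (ha : F.l u a = 0)
    (hs : s - F.cj s = F.l a a) (v w : V) :
    F.l (v + F.l v a • u + F.l v u • (a + s • u)) (w + F.l w a • u + F.l w u • (a + s • u)) =
      F.l v w := by
  have h1 : F.l a u = 0 := by rw [F.skew, ha, map_zero, neg_zero]
  simp only [F.add_left, F.smul_left, F.add_right, F.smul_right, hu, ha, h1, F.skew w u,
    F.skew w a, ← hs]
  noncomm_ring

theorem pair {u c : V} {s : R} (hu : F.l u u = 0) (hc : F.l u c = 1) (hs : s - F.cj s = F.l c c) :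
    F.l u (c - s • u) = 1 ∧ F.l (c - s • u) (c - s • u) = 0 := by
  have h1 : F.l c u = -1 := by rw [F.skew, hc, F.cj_one]
  simp only [sub_eq_add_neg, ← neg_smul, F.add_left, F.smul_left, F.add_right, F.smul_right, hu,
    hc, h1, ← hs, map_neg]
  constructor <;> noncomm_ring

end SH

variable {k G Ω : Type} [Field k] [Group G] [MulAction G Ω]

/-- the permutation representation -/
noncomputable def rho (k G Ω : Type) [Field k] [Group G] [MulAction G Ω] :
    Representation k G (Ω →₀ k) where
  toFun g := Finsupp.lmapDomain k k (g • ·)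
  map_one' := by ext; simp
  map_mul' g h := by ext; simp [mul_smul]

theorem rho_apply (g : G) (v : Ω →₀ k) (x : Ω) : rho k G Ω g v x = v (g⁻¹ • x) := by
  conv_lhs => rw [← smul_inv_smul g x]
  exact Finsupp.mapDomain_apply (MulAction.injective g) v _

theorem rho_single (g : G) (x : Ω) (c : k) :
    rho k G Ω g (Finsupp.single x c) = Finsupp.single (g • x) c := Finsupp.mapDomain_single

noncomputable instance modLam : Module (MonoidAlgebra k G) (Ω →₀ k) :=
  Module.compHom _ (rho k G Ω).asAlgebraHom.toRingHom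

theorem lam_smul (a : MonoidAlgebra k G) (v : Ω →₀ k) :
    a • v = a.coeff.sum fun g c => c • rho k G Ω g v := by
  change (rho k G Ω).asAlgebraHom a v = _
  rw [Representation.asAlgebraHom_def, MonoidAlgebra.lift_apply, LinearMap.finsupp_sum_apply]
  rfl

theorem single_smul (g : G) (c : k) (v : Ω →₀ k) :
    MonoidAlgebra.single g c • v = c • rho k G Ω g v := by
  change (rho k G Ω).asAlgebraHom _ v = _
  rw [Representation.asAlgebraHom_single]
  rfl

theorem lam_smul_mem {N : Submodule k (Ω →₀ k)} {a : MonoidAlgebra k G} {v : Ω →₀ k}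
    (h : ∀ g, a.coeff g ≠ 0 → rho k G Ω g v ∈ N) : a • v ∈ N := by
  rw [lam_smul]
  exact N.sum_mem fun g hg => N.smul_mem _ (h g (Finsupp.mem_support_iff.1 hg))

/-- a linear map applied to `a • v` when only one group element contributes -/
theorem map_lam_smul {W : Type} [AddCommGroup W] [Module k W] (φ : (Ω →₀ k) →ₗ[k] W)
    {a : MonoidAlgebra k G} {v : Ω →₀ k} (g : G)
    (h : ∀ g', a.coeff g' ≠ 0 → g' ≠ g → φ (rho k G Ω g' v) = 0) :
    φ (a • v) = a.coeff g • φ (rho k G Ω g v) := by
  rw [lam_smul, map_finsuppSum, Finsupp.sum_eq_single g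
    (fun g' h1 h2 => by rw [map_smul, h g' h1 h2, smul_zero]) (fun _ => by simp), map_smul]

theorem rho_mem {s t : Set Ω} {v : Ω →₀ k} (hv : v ∈ Finsupp.supported k k s) {g : G}
    (h : ∀ x ∈ s, g • x ∈ t) : rho k G Ω g v ∈ Finsupp.supported k k t := fun x hx => by
  rw [Finset.mem_coe, Finsupp.mem_support_iff, rho_apply] at hx
  simpa using h _ (hv (Finsupp.mem_support_iff.2 hx))

/-- the part of `v` supported on `s` -/
noncomputable def flt (s : Set Ω) : (Ω →₀ k) →ₗ[k] Ω →₀ k :=
  (Finsupp.supported k k s).subtype ∘ₗ Finsupp.restrictDom k k s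

theorem flt_apply (s : Set Ω) (v : Ω →₀ k) (x : Ω) : flt s v x = if x ∈ s then v x else 0 :=
  Finsupp.filter_apply _ _ _

theorem flt_mem {s t : Set Ω} {v : Ω →₀ k} (hv : v ∈ Finsupp.supported k k t) :
    flt s v ∈ Finsupp.supported k k (s ∩ t) := fun x hx => by
  rw [Finset.mem_coe, Finsupp.mem_support_iff, flt_apply] at hx
  by_cases h : x ∈ s
  · exact ⟨h, hv (Finsupp.mem_support_iff.2 (by rwa [if_pos h] at hx))⟩
  · exact (hx (if_neg h)).elim

theorem flt_eq_self {s : Set Ω} {v : Ω →₀ k} (hv : v ∈ Finsupp.supported k k s) :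
    flt s v = v := by
  ext x
  rw [flt_apply, ite_eq_left_iff]
  exact fun h => ((Finsupp.mem_supported' k v).1 hv x h).symm

theorem flt_eq_zero {s t : Set Ω} {v : Ω →₀ k} (hv : v ∈ Finsupp.supported k k t)
    (h : ∀ x ∈ t, x ∉ s) : flt s v = 0 := by
  ext x
  rw [flt_apply, Finsupp.zero_apply, ite_eq_right_iff]
  exact fun h1 => (Finsupp.mem_supported' k v).1 hv x fun h2 => h x h2 h1

theorem flt_add_compl (s : Set Ω) (v : Ω →₀ k) : flt s v + flt sᶜ v = v := by
  ext x
  rw [Finsupp.add_apply, flt_apply, flt_apply]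
  by_cases h : x ∈ s <;> simp [h]

/-- a linear map that kills all fibre components of `v` kills `v` -/
theorem map_eq_zero_of_fib {W T : Type} [AddCommGroup W] [Module k W] (φ : (Ω →₀ k) →ₗ[k] W)
    (p : Ω → T) {v : Ω →₀ k} (h : ∀ x, v x ≠ 0 → φ (flt {y | p y = p x} v) = 0) : φ v = 0 := by
  have e : v = ∑ t ∈ v.support.image p, flt {y | p y = t} v := by
    ext x
    simp only [Finsupp.finsetSum_apply, flt_apply, Set.mem_ofPred_eq, Finset.sum_ite_eq]
    split_ifs with h1
    · rfl
    · exact Finsupp.notMem_support_iff.1 fun h2 => h1 (Finset.mem_image_of_mem p h2)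
  rw [e, map_sum]
  refine Finset.sum_eq_zero fun t ht => ?_
  obtain ⟨x, hx, rfl⟩ := Finset.mem_image.1 ht
  exact h x (Finsupp.mem_support_iff.1 hx)

theorem finite_supported {s : Set Ω} (hs : s.Finite) :
    FiniteDimensional k (Finsupp.supported k k s) :=
  have := hs.to_subtype
  (Finsupp.supportedEquivFinsupp s).symm.finiteDimensional

end Pool.Agent.CSP
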