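import Pool.Agent.Lib.MP_436e1a_gt.Alg.Ei

/-! A hyperbolic pair over a free product gives a hyperbolic pair over one factor. -/

namespace Pool.Agent.CSP

open Monoid Monoid.CoprodI Finsupp
open scoped Classical

variable {ι : Type} {H : ι → Type} [∀ i, Group (H i)] {k Ω : Type} [Field k]
  [MulAction (CoprodI H) Ω]

/-- a hyperbolic pair -/
def GF.Hyp {G : Type} [Group G] [MulAction G Ω] (F : GF k G Ω) (x : Bool → Ω →₀ k) : Prop :=
  (∀ s t g, g ≠ 1 → F.b (x s) (rho k G Ω g (x t)) = 0) ∧ F.b (x false) (x true) = 1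

namespace Sys

variable {F : Sys k H Ω} {i j : ι} {g w η : CoprodI H} {u v z c a y : Ω →₀ k} {L n M : ℕ}
  {U : Submodule k (Ω →₀ k)} {x : Bool → Ω →₀ k}

theorem eq_of_not_At (hu : u ∈ F.W (At i 1)) (hc : c ∈ F.W (At j 1))
    (h : F.b u (rho k (CoprodI H) Ω g c) ≠ 0) : j = i ∧ ∃ a : H j, g = of a := by
  by_contra h1
  refine h (orth hu (At_rho' hc g) ?_)
  rintro _ _ _ ⟨rfl, rfl⟩ ⟨rfl, h2⟩
  exact h1 ⟨rfl, nf_eq_one.1 (h2.symm.trans (nf_one _))⟩

theorem St_mul_of (hw : ¬ St i w⁻¹) {a : H i} (ha : a ≠ 1) : St i (w * of a)⁻¹ := by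
  rw [mul_inv_rev, ← map_inv]
  refine (St_of (inv_ne_one.2 ha)).mul fun j h1 h2 => hw ?_
  rw [← map_inv, inv_inv] at h1
  rwa [← (St_of ha).unique h1] at h2

theorem b_cmp' (hc : c ∈ F.W (At i 1)) (a : H i) :
    F.b c (rho k (CoprodI H) Ω (of a) (F.cmp i w z)) =
      - F.b z (rho k (CoprodI H) Ω (w * of a⁻¹) c) := by
  have h1 := At_rho' hc (of a⁻¹)
  have h2 : (At i (of a⁻¹) : ι → CoprodI H → Prop) = At i 1 := by
    ext j v
    rw [At, At, ← one_mul (of a⁻¹), nf_mul_of]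
  rw [h2] at h1
  rw [← inv_inv (of a), b_inv, ← map_inv, b_cmp h1, rho_rho]

/-- a top component is orthogonal to the far translates of vectors of depth at most `L` -/
theorem top (hz : z ∈ F.W fun _ v => len v ≤ L) (hy : y ∈ F.W fun _ v => len v ≤ L)
    (h0 : ∀ g, g ≠ 1 → F.b z (rho k (CoprodI H) Ω g y) = 0) (hw : ¬ St i w⁻¹) (hL : len w = L)
    (hη : St i η⁻¹) (hn : L ≤ len (nf i η)) :
    F.b y (rho k (CoprodI H) Ω η (F.cmp i w z)) = 0 := by
  have h1 := key (F := F) hz hw hL.ge (h0 (w * η⁻¹) fun h => hw (mul_inv_eq_one.1 h ▸ hη))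
  have h2 := len_nf hη
  have h3 : F.fl (fun j v => ¬ On i j v) (rho k (CoprodI H) Ω η⁻¹ y) = 0 := by
    have := W_mono (Q := fun _ _ => False) (branch hy hη) fun _ _ _ h => by omega
    simpa [W] using this
  rw [h3, map_zero, map_zero, ← b_cmp (cmp_mem _ _ _), F.b_skew, neg_neg, b_cmp (cmp_mem _ _ _)] at h1
  exact h1.symm

theorem b_self (h2 : (2 : k) ≠ 0) (v : Ω →₀ k) : F.b v v = 0 := by
  have := F.b_skew v v
  exact (mul_eq_zero.1 (by linear_combination this : 2 * F.b v v = 0)).resolve_left h2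

theorem top_iso (h2 : (2 : k) ≠ 0) (hz : z ∈ F.W fun _ v => len v ≤ L)
    (h0 : ∀ g, g ≠ 1 → F.b z (rho k (CoprodI H) Ω g z) = 0) (hw : ¬ St i w⁻¹) (hL : len w = L)
    (g : CoprodI H) : F.b (F.cmp i w z) (rho k (CoprodI H) Ω g (F.cmp i w z)) = 0 := by
  by_contra h
  obtain ⟨-, a, rfl⟩ := eq_of_not_At (cmp_mem _ _ _) (cmp_mem _ _ _) h
  by_cases ha : a = 1
  · exact h (by simpa [ha] using b_self h2 _)
  · rw [b_cmp' (cmp_mem _ _ _), top hz hz h0 hw hL (St_mul_of hw (inv_ne_one.2 ha))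
      (by rw [nf_mul_of, nf_eq_self hw, hL]), neg_zero] at h
    exact h rfl

theorem step (h2 : (2 : k) ≠ 0) (hx : F.Hyp x) (hU : ∀ s, x s ∈ F.Good L U)
    (hu : u ∈ F.W (At i 1)) (huU : u ∈ U) (huu : ∀ g, F.b u (rho k (CoprodI H) Ω g u) = 0)
    (hM : ∀ s g, n < len (nf i g) → F.b (x s) (rho k (CoprodI H) Ω g u) = 0) (hη : St i η⁻¹)
    (hn : len (nf i η) = n) (hL : L = n + 1 + M) {t : Bool}
    (h1 : F.b (x t) (rho k (CoprodI H) Ω η u) = -1) :
    ∃ x', F.Hyp x' ∧ ∃ U' < U, ∀ s, x' s ∈ F.Good L U' := by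
  obtain ⟨S, hc, hl⟩ := F.exists_SH
  have hη' : len η = n + 1 := by rw [← len_nf hη, hn]
  set y := rho k (CoprodI H) Ω η⁻¹ (x t) with hy
  set a := F.fl (fun j v => ¬ On i j v) y with ha
  have hc0 := cmp_mem (F := F) i η (x t)
  set c := F.cmp i η (x t) with hcd
  have huc : F.b u c = 1 := by rw [F.b_skew, hcd, b_cmp hu, h1, neg_neg]
  have ha0 : a ∈ F.W fun j v => ¬ On i j v ∧ len v ≤ M :=
    W_mono (branch (mem_good.1 (hU t)).1 hη) fun _ _ _ h => ⟨h.1, by omega⟩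
  have hua : S.l u a = 0 := by
    ext g
    rw [hl, ← inv_inv g, b_inv]
    by_cases h : On i i (nf i g⁻¹)
    · simp [ha, b_fl_neg (P := fun j v => ¬ On i j v) (At_rho' hu g⁻¹) (not_not.2 h)]
    · obtain ⟨h3, h4⟩ := far' hη (not_St_nf i g⁻¹) h
      rw [ha, b_fl_pos (P := fun j v => ¬ On i j v) (At_rho' hu g⁻¹) h, hy, F.b_rho, inv_inv,
        rho_rho, hM _ _ (by rw [← nf_mul_nf, nf_eq_self h3, h4]; omega)]
      simp
  let P := fun e : CoprodI H => e ≠ 1 ∧ ¬ St i e ∧ ¬ St i e⁻¹ ∧ M ≤ len e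
  obtain ⟨s, hs⟩ : ∃ s : MonoidAlgebra k (CoprodI H), ∀ e, s.coeff e =
      if P e then - F.b a (rho k (CoprodI H) Ω e c) else 2⁻¹ * F.b a (rho k (CoprodI H) Ω e a) :=
    ⟨.ofCoeff ((-(S.l a c).coeff).filter P + ((2⁻¹ : k) • (S.l a a).coeff).filter (¬ P ·)),
      fun e => by by_cases h : P e <;> simp [h, hl]⟩
  have hsa : s - S.cj s = S.l a a := by
    ext e
    rw [MonoidAlgebra.coeff_sub, Finsupp.sub_apply, hc, hs, hs, hl]
    by_cases h : P e
    · rw [if_pos h, if_pos (show P e⁻¹ from ⟨inv_ne_one.2 h.1, h.2.2.1, by simpa using h.2.1,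
        by simpa [len_inv] using h.2.2.2⟩), sub_neg_eq_add]
      refine (self_branch (fun g hg => ?_) (W_mono ha0 fun _ _ _ h => h.2) h.1 h.2.1 h.2.2.1
        h.2.2.2).symm
      rw [hy, F.b_rho, rho_rho, rho_rho, inv_inv]
      exact hx.1 _ _ _ (by simpa using hg)
    · rw [if_neg h, if_neg fun h' : P e⁻¹ => h ⟨inv_ne_one.1 h'.1, by simpa using h'.2.2.1, h'.2.1,
        by simpa [len_inv] using h'.2.2.2⟩, b_inv]
      field_simp
      ring
  have hE := S.eichler (u := u) (by ext g; simp [hl, huu]) hua hsa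
  refine ⟨fun r => x r + S.l (x r) a • u + S.l (x r) u • (a + s • u), ⟨fun r r' g hg => ?_, ?_⟩,
    U ⊓ LinearMap.ker (F.b.flip c), inf_le_left.lt_of_ne fun h => ?_, fun r => add_mem ?_ ?_⟩
  · rw [← hl, hE, hl, hx.1 _ _ _ hg]
  · have := congrArg (fun z => z.coeff 1) (hE (x false) (x true))
    simpa [hl, hx.2] using this
  · rw [← h] at huU
    exact one_ne_zero (huc.symm.trans huU.2)
  · refine tidy hu huU hc0 huc (hU r) fun d hd => ?_
    rw [hl]
    split_ifs with h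
    · have := len_nf h
      exact deep (mem_good.1 (hU r)).1 (fl_mem' _) h (by omega)
    · exact key (mem_good.1 (hU r)).1 h (nf_eq_self h ▸ hd)
        (hx.1 _ _ _ fun h' => h (mul_inv_eq_one.1 h' ▸ hη))
  · refine lam_smul_mem fun g hg => ?_
    have hg' : len (nf i g) ≤ n := not_lt.1 fun h => hg (by rw [hl, hM _ _ h])
    have : rho k (CoprodI H) Ω g (s • u) = (MonoidAlgebra.single g (1 : k) * s) • u := by
      rw [mul_smul, single_smul, one_smul]
    rw [map_add, this]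
    refine tidy hu huU hc0 huc (good_branch (hU t) hη hη' hg') fun d hd => ?_
    obtain ⟨e, rfl⟩ : ∃ e, d = g * e := ⟨g⁻¹ * d, by simp⟩
    rw [MonoidAlgebra.coeff_single_mul_apply, one_mul, inv_mul_cancel_left, hs, F.b_rho, rho_rho,
      inv_mul_cancel_left]
    exact corr ha0 hc0 hg' (hL ▸ hd)

theorem pair (h2 : (2 : k) ≠ 0) (hu : u ∈ F.W (At i 1)) (hc : c ∈ F.W (At i 1))
    (huu : ∀ g, F.b u (rho k (CoprodI H) Ω g u) = 0) (h1 : F.b u c = 1)
    (h0 : ∀ g, g ≠ 1 → F.b u (rho k (CoprodI H) Ω g c) = 0) :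
    ∃ x, F.Hyp x ∧ ∀ s, x s ∈ F.W (At i 1) := by
  obtain ⟨S, hcj, hl⟩ := F.exists_SH
  have h3 : S.l u u = 0 := by ext g; simp [hl, huu]
  have h4 : S.l u c = 1 := by
    ext g
    by_cases hg : g = 1
    · simp [hg, hl, h1]
    · simp [hl, h0 g hg, MonoidAlgebra.one_def, hg]
  obtain ⟨h5, h6⟩ := S.pair (s := (2⁻¹ : k) • S.l c c) h3 h4 (by
    ext e
    simp only [MonoidAlgebra.coeff_sub, Finsupp.sub_apply, hcj, MonoidAlgebra.coeff_smul_apply, hl,
      b_inv, smul_eq_mul]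
    field_simp
    ring)
  have h7 := S.skew u (c - ((2⁻¹ : k) • S.l c c) • u)
  rw [h5, S.cj_one] at h7
  refine ⟨fun s => bif s then c - ((2⁻¹ : k) • S.l c c) • u else u, ⟨fun s t g hg => ?_, ?_⟩,
    fun s => ?_⟩
  · rw [← hl]
    cases s <;> cases t <;> simp [h3, h5, h6, h7, MonoidAlgebra.one_def, hg]
  · simpa [hl] using congrArg (fun z => z.coeff 1) h5
  · cases s
    · exact hu
    · refine sub_mem hc (lam_smul_mem fun g hg => W_mono (At_rho' hu g) fun j v _ h => ?_)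
      obtain ⟨-, a, rfl⟩ := eq_of_not_At hc hc (g := g) fun h => hg (by simp [hl, h])
      exact ⟨h.1, by rw [h.2, ← one_mul (of a), nf_mul_of]⟩

theorem drop (hx : F.Hyp x) (hL : ∀ s, x s ∈ F.W fun _ v => len v ≤ L)
    (h : ∀ s t j w g, ¬ St j w⁻¹ → len w = L →
      F.b (x s) (rho k (CoprodI H) Ω g (F.cmp j w (x t))) = 0) :
    F.Hyp fun s => F.fl (fun _ v => len v < L) (x s) := by
  have K : ∀ (P : ι → CoprodI H → Prop) s t g, F.b (F.fl P (x s))
      (rho k (CoprodI H) Ω g (F.fl (fun _ v => len v < L) (x t))) =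
        F.b (F.fl P (x s)) (rho k (CoprodI H) Ω g (x t)) := fun P s t g => by
    conv_rhs => rw [← fl_add (F := F) (fun _ v => len v < L) (x t)]
    rw [map_add, map_add, left_eq_add]
    refine map_eq_zero_of_fib (F.b (F.fl P (x s)) ∘ₗ rho k (CoprodI H) Ω g)
      (fun y => (F.ty y, F.pos y)) fun y hy => ?_
    have h1 : len (F.pos y) = L := by
      by_contra h1
      exact hy ((mem_supported' _ _).1 (fl_mem (P := fun _ v => ¬ len v < L) (hL t)) y fun h =>
        h1 (le_antisymm h.2 (not_lt.1 h.1)))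
    have h3 : {z | (F.ty z, F.pos z) = (F.ty y, F.pos y)} =
        {z | At (F.ty y) (F.pos y) (F.ty z) (F.pos z)} := by
      simp [At, nf_eq_self (F.nm y)]
    rw [LinearMap.comp_apply, h3, ← fl, ← rho_cmp, cmp_fl (P := fun _ v => ¬ len v < L)
      (by rw [nf_eq_self (F.nm y), h1]; exact lt_irrefl _), rho_rho]
    have h4 := At_rho' (cmp_mem (F := F) (F.ty y) (F.pos y) (x t)) (g * F.pos y)
    by_cases hP : P (F.ty y) (nf (F.ty y) (g * F.pos y))
    · rw [b_fl_pos h4 hP, h _ _ _ _ _ (F.nm y) h1]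
    · exact b_fl_neg h4 hP
  have K' : ∀ s t g, F.b (F.fl (fun _ v => len v < L) (x s))
      (rho k (CoprodI H) Ω g (F.fl (fun _ v => len v < L) (x t))) =
        F.b (x s) (rho k (CoprodI H) Ω g (x t)) := fun s t g => by
    have h1 := K (fun _ _ => True) t s g⁻¹
    rw [fl, flt_eq_self (mem_top (F := F) _), b_inv, b_inv, neg_inj] at h1
    rw [K, h1]
  exact ⟨fun s t g hg => (K' s t g).trans (hx.1 s t g hg), by simpa [hx.2] using K' false true 1⟩

theorem exists_good (hL : ∀ s, x s ∈ F.W fun _ v => len v ≤ L) :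
    ∃ U : Submodule k (Ω →₀ k), FiniteDimensional k U ∧ ∀ s, x s ∈ F.Good L U := by
  refine ⟨supported k k ((fun y => (F.pos y)⁻¹ • y) '' ⋃ s, (x s).support), finite_supported
    ((Set.finite_iUnion fun s => Finset.finite_toSet _).image _),
    fun s => mem_good.2 ⟨hL s, fun j w hw _ => (mem_supported' _ _).2 fun y hy => ?_⟩⟩
  rw [cmp, LinearMap.comp_apply, fl_apply, rho_apply, inv_inv]
  split_ifs with h
  · by_contra h1
    refine hy ⟨w • y, Set.mem_iUnion.2 ⟨s, mem_support_iff.2 h1⟩, ?_⟩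
    simp only [F.pos_smul, h.1, h.2, nf_mul_nf, mul_one, nf_eq_self hw, inv_smul_smul]
  · rfl

/-- Grushko theorem for skew-hermitian forms -/
theorem grushko (h2 : (2 : k) ≠ 0) (hx : F.Hyp x) :
    ∃ i x, F.Hyp x ∧ ∀ s, x s ∈ F.W (At i 1) := by
  obtain ⟨L, hL⟩ : ∃ L, ∀ s, x s ∈ F.W fun _ v => len v < L := by
    obtain ⟨L, hL⟩ := ((Set.finite_iUnion fun s => (x s).support.finite_toSet).image
      fun y => len (F.pos y)).bddAbove
    exact ⟨L + 1, fun s y hy => Nat.lt_succ_of_le (hL ⟨y, Set.mem_iUnion.2 ⟨s, hy⟩, rfl⟩)⟩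
  induction L generalizing x with
  | zero =>
    have : x false = 0 := by simpa [W] using hL false
    exact absurd hx.2 (by simp [this])
  | succ L ih =>
    obtain ⟨U, hU, hG⟩ := exists_good (L := L) fun s => W_mono (hL s) fun _ _ _ => Nat.le_of_lt_succ
    clear hL
    induction hd : Module.finrank k U using Nat.strong_induction_on generalizing U x with
    | _ d ihd =>
    have hD := fun s => (mem_good.1 (hG s)).1
    by_cases h : ∀ s t j w g, ¬ St j w⁻¹ → len w = L →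
        F.b (x s) (rho k (CoprodI H) Ω g (F.cmp j w (x t))) = 0
    · exact ih (drop hx hD h) fun s => fl_mem' _
    simp only [not_forall, exists_prop] at h
    obtain ⟨s0, t, i, w, g0, hw, hwL, h⟩ := h
    have hu := cmp_mem (F := F) i w (x t)
    have hP : ∀ s g, F.b (x s) (rho k (CoprodI H) Ω g (F.cmp i w (x t))) ≠ 0 → len (nf i g) ≤ L :=
      fun s g h => not_lt.1 fun h' => h (deep' (hD s) hu h')
    obtain ⟨⟨s, g⟩, hg, hmax⟩ := Set.Finite.exists_maximalFor'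
      (fun p : Bool × CoprodI H => len (nf i p.2))
      {p | F.b (x p.1) (rho k (CoprodI H) Ω p.2 (F.cmp i w (x t))) ≠ 0}
      ((Set.finite_Iic L).subset (by rintro _ ⟨p, hp, rfl⟩; exact hP _ _ hp)) ⟨(s0, g0), h⟩
    have huu := top_iso h2 (hD t) (hx.1 t t) hw hwL
    by_cases hA : ∃ η, nf i η = nf i g ∧ St i η⁻¹ ∧
        F.b (x s) (rho k (CoprodI H) Ω η (F.cmp i w (x t))) ≠ 0
    · obtain ⟨η, e1, e2, e3⟩ := hA
      have e4 : len (nf i η) < L := not_le.1 fun h => e3 (top (hD t) (hD s) (hx.1 t s) hw hwL e2 h)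
      obtain ⟨M, hM⟩ := Nat.exists_eq_add_of_lt e4
      obtain ⟨x', hx', U', hU', hG'⟩ := step (M := M) (t := s) h2 hx hG
        (Submodule.smul_mem _ (-(F.b (x s) (rho k (CoprodI H) Ω η (F.cmp i w (x t))))⁻¹) hu)
        (U.smul_mem _ ((mem_good.1 (hG t)).2 i w hw hwL)) (fun g => by simp [huu])
        (fun s' g' h => by
          by_contra h'
          rw [e1] at h
          exact h.not_ge (hmax (j := (s', g')) (fun h0 => h' (by simp [h0])) h.le))
        e2 rfl (by omega) (by simp [e3])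
      have := Submodule.finiteDimensional_of_le hU'.le
      exact ihd _ (hd ▸ Submodule.finrank_lt_finrank_of_lt hU') hx' U' this hG' rfl
    · have e1 : ¬ St i g⁻¹ := fun h => hA ⟨g, rfl, h, hg⟩
      refine ⟨i, pair (c := F.cmp i g (x s)) h2
        (Submodule.smul_mem _ (-(F.b (x s) (rho k (CoprodI H) Ω g (F.cmp i w (x t))))⁻¹) hu)
        (cmp_mem _ _ _) (fun g => by simp [huu]) ?_ fun g' hg' => ?_⟩
      · rw [map_smul, LinearMap.smul_apply, F.b_skew (F.cmp i g _), b_cmp hu, smul_eq_mul,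
          neg_mul_neg]
        exact inv_mul_cancel₀ hg
      · rw [map_smul, LinearMap.smul_apply]
        refine smul_eq_zero_of_right _ (not_not.1 fun h => ?_)
        obtain ⟨-, a, rfl⟩ := eq_of_not_At hu (cmp_mem _ _ _) h
        rw [b_cmp' hu, neg_eq_zero] at h
        exact hA ⟨_, nf_mul_of _ _, St_mul_of e1 (inv_ne_one.2 fun h => hg' (by simp [h])), h⟩

end Sys

end Pool.Agent.CSP
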