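import Mathlib

/-! Length, first letter and coset normal forms in a free product of groups. -/

namespace Pool.Agent.CSP

open Monoid Monoid.CoprodI
open scoped Classical

variable {ι : Type} {H : ι → Type} [∀ i, Group (H i)]

/-- length of the reduced word -/
noncomputable def len (g : CoprodI H) : ℕ := (Word.equiv g).toList.length

/-- the reduced word of `g` starts with a letter of `H i` -/
def St (i : ι) (g : CoprodI H) : Prop := (Word.equiv g).fstIdx = some i

/-- the first letter if it lies in `H i`, else `1` -/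
noncomputable def hd (i : ι) (g : CoprodI H) : H i := (Word.equivPair i (Word.equiv g)).head

/-- the shortest element of the coset `g * H i` -/
noncomputable def nf (i : ι) (g : CoprodI H) : CoprodI H := g * of (hd i g⁻¹)

/-- the vertex `w * H i` (with `w` shortest in its coset) lies on the side `j` of the base -/
def On (j i : ι) (w : CoprodI H) : Prop := St j w ∨ (w = 1 ∧ i = j)

variable {i j : ι} {g g' w : CoprodI H}

theorem wd_mul (g g' : CoprodI H) : Word.equiv (g * g') = g • Word.equiv g' := mul_smul g g' _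

theorem wd_prod (w : NeWord H i j) : Word.equiv w.prod = w.toWord :=
  Word.equiv.apply_symm_apply w.toWord

theorem wd_ne (h : g ≠ 1) : ∃ (i j : ι) (w : NeWord H i j), w.prod = g := by
  obtain ⟨i, j, w, e⟩ := NeWord.of_word (Word.equiv g) fun e =>
    h (Word.equiv.injective (e.trans (one_smul (CoprodI H) _).symm))
  exact ⟨i, j, w, (congrArg Word.prod e).trans (Word.equiv.symm_apply_apply g)⟩

theorem wd_len (w : NeWord H i j) : len w.prod = w.toList.length := by
  rw [len, wd_prod]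
  rfl

theorem wd_St (w : NeWord H i j) : St i w.prod := by
  rw [St, wd_prod]
  exact congrArg (Option.map Sigma.fst) w.toList_head?

theorem wd_one : Word.equiv (1 : CoprodI H) = Word.empty := one_smul (CoprodI H) _

theorem len_eq_zero : len g = 0 ↔ g = 1 := by
  refine ⟨fun h => by_contra fun h1 => ?_, fun h => by rw [h, len, wd_one]; rfl⟩
  obtain ⟨i, j, w, rfl⟩ := wd_ne h1
  exact w.toList_ne_nil (List.length_eq_zero_iff.1 ((wd_len w).symm.trans h))

theorem len_one : len (1 : CoprodI H) = 0 := len_eq_zero.2 rfl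

/-- for `g ≠ 1` write `Word.equiv g = w.toWord` with `w : NeWord H i j` (`NeWord.of_word`), and use
`NeWord.inv`; its list has the same length (induction on `w`) -/
theorem len_inv (g : CoprodI H) : len g⁻¹ = len g := by
  obtain rfl | h := eq_or_ne g 1
  · rw [inv_one]
  obtain ⟨i, j, w, rfl⟩ := wd_ne h
  rw [← NeWord.inv_prod, wd_len, wd_len]
  clear h
  induction w with
  | singleton => rfl
  | append _ _ _ h1 h2 => simp [NeWord.inv, h1, h2, add_comm]

theorem St.unique (h : St i g) (h' : St j g) : i = j := Option.some.inj (h.symm.trans h')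

theorem not_St_one : ¬ St i (1 : CoprodI H) := by
  rw [St, wd_one]
  exact fun h => nomatch h

theorem exists_St (h : g ≠ 1) : ∃ i, St i g := by
  obtain ⟨i, j, w, rfl⟩ := wd_ne h
  exact ⟨i, wd_St w⟩

theorem St_of {h : H i} (h1 : h ≠ 1) : St i (of h : CoprodI H) :=
  NeWord.prod_singleton h h1 ▸ wd_St _

theorem len_of {h : H i} (h1 : h ≠ 1) : len (of h : CoprodI H) = 1 :=
  NeWord.prod_singleton h h1 ▸ wd_len _

theorem wd_of {a : H i} (h : St j (of a : CoprodI H)) : i = j :=
  (St_of fun e => not_St_one (by rwa [e, map_one] at h)).unique h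

theorem wd_app {k l : ι} {w : NeWord H i j} {w' : NeWord H k l}
    (h : ∀ i, St i w.prod⁻¹ → ¬ St i w'.prod) : j ≠ k := fun e =>
  h j (w.inv_prod ▸ wd_St _) (e ▸ wd_St w')

/-- no cancellation: `NeWord.append` -/
theorem len_mul (h : ∀ i, St i g⁻¹ → ¬ St i g') : len (g * g') = len g + len g' := by
  obtain rfl | h1 := eq_or_ne g 1
  · rw [one_mul, len_one, zero_add]
  obtain rfl | h2 := eq_or_ne g' 1
  · rw [mul_one, len_one, add_zero]
  obtain ⟨i, j, w, rfl⟩ := wd_ne h1
  obtain ⟨k, l, w', rfl⟩ := wd_ne h2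
  rw [← NeWord.append_prod (hne := wd_app h), wd_len, wd_len, wd_len]
  exact List.length_append

theorem St.mul (hi : St i g) (h : ∀ j, St j g⁻¹ → ¬ St j g') : St i (g * g') := by
  obtain rfl | h2 := eq_or_ne g' 1
  · rwa [mul_one]
  obtain ⟨k, j, w, rfl⟩ := wd_ne (fun e => not_St_one (e ▸ hi) : g ≠ 1)
  obtain ⟨k', l, w', rfl⟩ := wd_ne h2
  rw [← NeWord.append_prod (hne := wd_app h), hi.unique (wd_St w)]
  exact wd_St _

theorem not_St_tail (i : ι) (g : CoprodI H) : ¬ St i ((of (hd i g))⁻¹ * g) := by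
  rw [St, wd_mul, hd, ← Word.equivPair_tail_eq_inv_smul]
  exact Word.Pair.fstIdx_ne _

theorem hd_of_mul (h : H i) (g : CoprodI H) : hd i (of h * g) = h * hd i g := by
  rw [hd, wd_mul, Word.equivPair_smul_same, hd]

theorem hd_eq_one : hd i g = 1 ↔ ¬ St i g := by
  refine ⟨fun h => ?_, fun h => by rw [hd, Word.equivPair_eq_of_fstIdx_ne h]⟩
  have := not_St_tail i g
  rwa [h, map_one, inv_one, one_mul] at this

/-- the first letter is constant on every vertex other than the base vertex of type `i` -/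
theorem hd_mul_of (h : H j) (hg : ¬ (j = i ∧ ∃ a : H i, g = of a)) : hd i (g * of h) = hd i g := by
  obtain ⟨t, ht, e⟩ : ∃ t, ¬ St i t ∧ g = of (hd i g) * t :=
    ⟨_, not_St_tail i g, (mul_inv_cancel_left _ _).symm⟩
  obtain ⟨s, a, hs, rfl⟩ : ∃ (s : CoprodI H) (a : H j), ¬ St j s⁻¹ ∧ t = s * of a :=
    ⟨t * of (hd j t⁻¹), (hd j t⁻¹)⁻¹, by rw [mul_inv_rev]; exact not_St_tail j _, by simp⟩
  have h1 : ¬ St i (s * of (a * h)) := fun h1 => by
    obtain rfl | h2 := eq_or_ne s 1
    · obtain rfl := wd_of (one_mul (of (a * h) : CoprodI H) ▸ h1)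
      exact hg ⟨rfl, _, e.trans (by rw [one_mul, ← map_mul])⟩
    obtain ⟨k, hk⟩ := exists_St h2
    have h3 : ∀ b : H j, St k (s * of b) := fun b => hk.mul fun l h4 h5 => hs (wd_of h5 ▸ h4)
    exact ht ((h3 _).unique h1 ▸ h3 a)
  rw [congrArg (· * of h) e]
  simp only [mul_assoc, ← map_mul]
  rw [hd_of_mul, hd_eq_one.2 h1, mul_one]

theorem wd_cons (hg : ¬ St i g) {a : H i} (h : a ≠ 1) : len (of a * g) = len g + 1 := by
  rw [len_mul fun l h1 h2 => hg (wd_of (map_inv (of : H i →* CoprodI H) a ▸ h1) ▸ h2), len_of h,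
    add_comm]

theorem wd_tail (hi : St i g) : len ((of (hd i g))⁻¹ * g) + 1 = len g := by
  rw [← wd_cons (not_St_tail i g) fun e => hd_eq_one.1 e hi, mul_inv_cancel_left]

theorem wd_le (hg : ¬ St i g) (a : H i) : len (of a * g) ≤ len g + 1 := by
  obtain rfl | h := eq_or_ne a 1
  · rw [map_one, one_mul]
    exact Nat.le_succ _
  exact (wd_cons hg h).le

theorem len_of_mul_le (hi : St i g) (h : H i) : len (of h * g) ≤ len g := by
  have := wd_le (not_St_tail i g) (h * hd i g)
  rwa [wd_tail hi, map_mul, mul_assoc, mul_inv_cancel_left] at this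

theorem len_mul_le (g g' : CoprodI H) : len (g * g') ≤ len g + len g' := by
  induction' e : len g with n ih generalizing g
  · rw [len_eq_zero.1 e, one_mul, zero_add]
  obtain ⟨i, hi⟩ := exists_St (g := g) fun h => by simp [h, len_one] at e
  have h1 := ih _ (Nat.succ.inj ((wd_tail hi).trans e))
  have h2 : ∀ u : CoprodI H, len (of (hd i g) * u) ≤ len u + 1 := fun u =>
    (em (St i u)).elim (fun h => (len_of_mul_le h _).trans (Nat.le_succ _)) (wd_le · _)
  have h3 := h2 ((of (hd i g))⁻¹ * g * g')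
  rw [mul_assoc, mul_inv_cancel_left, ← mul_assoc] at h3
  omega

theorem nf_mul_of (w : CoprodI H) (h : H i) : nf i (w * of h) = nf i w := by
  rw [nf, nf, mul_inv_rev, ← map_inv, hd_of_mul, mul_assoc, ← map_mul, mul_inv_cancel_left]

theorem nf_eq_self (h : ¬ St i w⁻¹) : nf i w = w := by
  rw [nf, hd_eq_one.2 h, map_one, mul_one]

theorem not_St_nf (i : ι) (w : CoprodI H) : ¬ St i (nf i w)⁻¹ := by
  rw [nf, mul_inv_rev]
  exact not_St_tail i _

theorem nf_mul_nf (g w : CoprodI H) : nf i (g * nf i w) = nf i (g * w) := by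
  rw [← nf_mul_of (g * w) (hd i w⁻¹), mul_assoc]
  rfl

theorem nf_eq_nf : nf i w = nf i g ↔ ∃ h : H i, g = w * of h :=
  ⟨fun h => ⟨hd i w⁻¹ * (hd i g⁻¹)⁻¹, by
    rw [map_mul, map_inv, ← mul_assoc, eq_mul_inv_iff_mul_eq]; exact h.symm⟩,
    fun ⟨h, e⟩ => e ▸ (nf_mul_of w h).symm⟩

theorem nf_eq_one : nf i w = 1 ↔ ∃ h : H i, w = of h := by
  have h : nf i (1 : CoprodI H) = 1 := nf_eq_self (inv_one (G := CoprodI H) ▸ not_St_one)
  rw [eq_comm]
  simpa only [h, one_mul] using nf_eq_nf (i := i) (w := 1) (g := w)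

theorem len_nf_le (i : ι) (w : CoprodI H) : len (nf i w) ≤ len w := by
  by_cases h : St i w⁻¹
  · rw [← len_inv, ← len_inv w, nf, mul_inv_rev, ← wd_tail h]
    exact Nat.le_succ _
  · rw [nf_eq_self h]

theorem len_nf (h : St i w⁻¹) : len (nf i w) + 1 = len w := by
  rw [← len_inv, ← len_inv w, nf, mul_inv_rev, wd_tail h]

theorem len_nf_mul_le (i : ι) (g w : CoprodI H) : len (nf i (g * w)) ≤ len g + len (nf i w) :=
  nf_mul_nf (i := i) g w ▸ (len_nf_le _ _).trans (len_mul_le _ _)

/-- the far side of the edge `g` -/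
theorem far (hw : ¬ St i w⁻¹) (h : ∀ j, St j g⁻¹ → ¬ On j i w) :
    ¬ St i (g * w)⁻¹ ∧ len (g * w) = len g + len w := by
  refine ⟨fun h1 => ?_, len_mul fun j h1 h2 => h j h1 (Or.inl h2)⟩
  obtain rfl | h2 := eq_or_ne w 1
  · exact h i (mul_one g ▸ h1) (Or.inr ⟨rfl, rfl⟩)
  obtain ⟨k, hk⟩ := exists_St (inv_ne_one.2 h2)
  rw [mul_inv_rev] at h1
  exact hw ((hk.mul fun j h3 h4 => h j h4 (Or.inl (inv_inv w ▸ h3))).unique h1 ▸ hk)

theorem On.unique {j' : ι} (h : On j i w) (h' : On j' i w) : j = j' := by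
  obtain h | ⟨rfl, rfl⟩ := h <;> obtain h' | ⟨e, h'⟩ := h'
  exacts [h.unique h', (not_St_one (e ▸ h)).elim, (not_St_one h').elim, h']

end Pool.Agent.CSP
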