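import Pool.Agent.Lib.MP_436e1a_gt.Alg.Gr

/-! The Grushko theorem for forms, stated for equivariant families of components. -/

namespace Pool.Agent.CSP

open Monoid Monoid.CoprodI Finsupp
open scoped Classical

/-- the free `G`-set on `A` -/
structure Pt (G A : Type) where
  pos : G
  pt : A

instance {G A : Type} [Group G] : MulAction G (Pt G A) where
  smul g x := ⟨g * x.pos, x.pt⟩
  one_smul x := congrArg (Pt.mk · x.pt) (one_mul _)
  mul_smul _ _ x := congrArg (Pt.mk · x.pt) (mul_assoc _ _ _)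

theorem Pt.smul_def {G A : Type} [Group G] (g : G) (x : Pt G A) : g • x = ⟨g * x.pos, x.pt⟩ := rfl

variable {ι : Type} {H : ι → Type} [∀ i, Group (H i)] {k : Type} [Field k] {S : ι → Type}
  [∀ i, MulAction (H i) (S i)] (F : ∀ i, GF k (H i) (S i))

/-- the forms of the factors extended by zero -/
noncomputable def wrB (a b : Σ i, S i) (g : CoprodI H) : k :=
  if h : b.1 = a.1 then (if nf a.1 g = 1 then (F a.1).β a.2 (hd a.1 g • (h ▸ b.2)) else 0) else 0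

theorem wrB_of {i : ι} (a b : S i) (h : H i) :
    wrB F ⟨i, a⟩ ⟨i, b⟩ (of h) = (F i).β a (h • b) := by
  have h1 : hd i (of h : CoprodI H) = h := by
    simpa [hd_eq_one.2 not_St_one] using hd_of_mul h (1 : CoprodI H)
  simp [wrB, nf_eq_one.2 ⟨h, rfl⟩, h1]

theorem wrB_ne {a b : Σ i, S i} {g : CoprodI H} (h : wrB F a b g ≠ 0) :
    ∃ (i : ι) (x y : S i) (c : H i), a = ⟨i, x⟩ ∧ b = ⟨i, y⟩ ∧ g = of c := by
  obtain ⟨i, x⟩ := a
  obtain ⟨j, y⟩ := b
  unfold wrB at h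
  split_ifs at h with h1 h2
  · obtain rfl : j = i := h1
    obtain ⟨c, rfl⟩ := nf_eq_one.1 h2
    exact ⟨j, x, y, c, rfl, rfl, rfl⟩
  all_goals exact (h rfl).elim

theorem GF.inv' {G Ω : Type} [Group G] [MulAction G Ω] (F : GF k G Ω) (g : G) (x y : Ω) :
    F.β x (g⁻¹ • y) = F.β (g • x) y := by rw [← F.inv g, smul_inv_smul]

theorem wrB_skew (a b : Σ i, S i) (g : CoprodI H) : wrB F b a g⁻¹ = - wrB F a b g := by
  have : ∀ a b g, wrB F a b g ≠ 0 → wrB F b a g⁻¹ = - wrB F a b g := fun a b g h => by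
    obtain ⟨i, x, y, c, rfl, rfl, rfl⟩ := wrB_ne F h
    rw [← map_inv, wrB_of, wrB_of, GF.inv', GF.skew]
  by_cases h : wrB F a b g = 0
  · by_contra h1
    have h2 := this b a g⁻¹ fun h2 => h1 (by rw [h, h2, neg_zero])
    rw [inv_inv] at h2
    exact h1 (by rw [h2, neg_neg])
  · exact this a b g h

/-- the induced system -/
noncomputable def wrSys : Sys k H (Pt (CoprodI H) (Σ i, S i)) where
  β x y := wrB F x.pt y.pt (x.pos⁻¹ * y.pos)
  inv g x y := by simp [Pt.smul_def, mul_assoc]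
  skew x y := by rw [← wrB_skew]; simp
  fin x y := by
    by_cases h : ∃ g, wrB F x.pt y.pt g ≠ 0
    · obtain ⟨g, hg⟩ := h
      obtain ⟨i, a, b, -, h1, h2, -⟩ := wrB_ne F hg
      refine (((F i).fin a b).image fun c => x.pos * of c * y.pos⁻¹).subset fun g hg => ?_
      simp only [Set.mem_ofPred_eq, Pt.smul_def, h1, h2] at hg
      obtain ⟨j, a', b', c, h3, -, h4⟩ := wrB_ne F hg
      obtain rfl : i = j := congrArg Sigma.fst h3
      rw [h4, wrB_of] at hg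
      exact ⟨c, hg, by simp [← h4]⟩
    · exact Set.finite_empty.subset fun g hg => h ⟨_, hg⟩
  ty x := x.pt.1
  pos x := nf x.pt.1 x.pos
  nm _ := not_St_nf _ _
  ty_smul _ _ := rfl
  pos_smul _ _ := (nf_mul_nf _ _).symm
  loc x y h := by
    obtain ⟨i, a, b, c, h1, h2, h3⟩ := wrB_ne F h
    simp only [h1, h2, true_and]
    exact nf_eq_nf.2 ⟨c, by simp [← h3]⟩

theorem wr_rep {p : ℕ} [Fact p.Prime] (F : ∀ i, GF (ZMod p) (H i) (S i)) {i : ι} (a₀ : S i)
    (add : ∀ x y, ∃ z, ∀ t, (F i).β z t = (F i).β x t + (F i).β y t)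
    {v : Pt (CoprodI H) (Σ i, S i) →₀ ZMod p} (hv : v ∈ (wrSys F).W (Sys.At i 1)) :
    ∃ z : S i, (wrSys F).b v = (wrSys F).b (single ⟨1, ⟨i, z⟩⟩ 1) := by
  have ext' : ∀ {v w : Pt (CoprodI H) (Σ i, S i) →₀ ZMod p},
      (∀ y, (wrSys F).b v (single y 1) = (wrSys F).b w (single y 1)) →
        (wrSys F).b v = (wrSys F).b w := fun h => by
    ext y
    exact h y
  have h1 : ∀ x y : S i, ∃ z : S i, (wrSys F).b (single ⟨1, ⟨i, x⟩⟩ 1) +
      (wrSys F).b (single ⟨1, ⟨i, y⟩⟩ 1) = (wrSys F).b (single ⟨1, ⟨i, z⟩⟩ 1) := fun x y => by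
    obtain ⟨z, hz⟩ := add x y
    refine ⟨z, ?_⟩
    rw [← map_add]
    refine ext' fun t => ?_
    simp only [map_add, LinearMap.add_apply, GF.b_single, one_mul, wrSys, wrB]
    split_ifs <;> simp [hz]
  have h2 : ∀ (n : ℕ) (x : S i), ∃ z : S i, ((n + 1 : ℕ) : ZMod p) •
      (wrSys F).b (single ⟨1, ⟨i, x⟩⟩ 1) = (wrSys F).b (single ⟨1, ⟨i, z⟩⟩ 1) := fun n x => by
    induction n with
    | zero => exact ⟨x, by simp⟩
    | succ n ih =>
      obtain ⟨z, hz⟩ := ih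
      rw [Nat.cast_succ, add_smul, hz, one_smul]
      exact h1 z x
  have h3 : ∀ (c : ZMod p) (x : S i), ∃ z : S i, c •
      (wrSys F).b (single ⟨1, ⟨i, x⟩⟩ 1) = (wrSys F).b (single ⟨1, ⟨i, z⟩⟩ 1) := fun c x => by
    simpa using h2 (c - 1).val x
  rw [Sys.W, supported_eq_span_single] at hv
  induction hv using Submodule.span_induction with
  | mem v hv =>
    obtain ⟨⟨w, j, a⟩, ⟨hj, h⟩, rfl⟩ := hv
    obtain rfl : j = i := hj
    obtain ⟨c, rfl⟩ : ∃ c : H j, w = of c := nf_eq_one.1 (h.trans (nf_one _))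
    refine ⟨c • a, ext' fun t => ?_⟩
    simp only [GF.b_single, one_mul, wrSys, inv_one]
    by_cases h4 : ∃ (b : S j) (c' : H j), t = ⟨of c', ⟨j, b⟩⟩
    · obtain ⟨b, c', rfl⟩ := h4
      rw [← map_inv, ← map_mul, wrB_of, wrB_of, mul_smul, GF.inv']
    · refine Eq.trans (b := 0) (not_not.1 fun h5 => h4 ?_) (Eq.symm (not_not.1 fun h5 => h4 ?_))
      all_goals
        obtain ⟨j', a', b, c', e1, e2, e3⟩ := wrB_ne F h5
        obtain rfl : j = j' := congrArg Sigma.fst e1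
      · exact ⟨b, c * c', by rw [← e2, map_mul, ← e3, mul_inv_cancel_left]⟩
      · exact ⟨b, c', by rw [← e2, ← e3]⟩
  | zero => simpa using h3 0 a₀
  | add v w _ _ hv hw =>
    obtain ⟨x, hx⟩ := hv
    obtain ⟨y, hy⟩ := hw
    rw [map_add, hx, hy]
    exact h1 x y
  | smul c v _ hv =>
    obtain ⟨x, hx⟩ := hv
    rw [map_smul, hx]
    exact h3 c x

theorem wr_sum (x : Bool → ∀ i, CoprodI H → S i)
    (heq : ∀ s i w (h : H i), x s i (w * of h) = h⁻¹ • x s i w) (T : Finset (ι × CoprodI H))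
    (hT : ∀ v ∈ T, ¬ St v.1 v.2⁻¹)
    (h0 : ∀ s i w, ¬ St i w⁻¹ → (i, w) ∉ T → ∀ t, (F i).β (x s i w) t = 0) (s t : Bool)
    (g : CoprodI H) :
    (wrSys F).b (∑ v ∈ T, single ⟨v.2, ⟨v.1, x s v.1 v.2⟩⟩ 1)
      (rho k (CoprodI H) _ g (∑ v ∈ T, single ⟨v.2, ⟨v.1, x t v.1 v.2⟩⟩ 1)) =
      ∑ v ∈ T, (F v.1).β (x s v.1 v.2) (x t v.1 (g⁻¹ * v.2)) := by
  simp only [map_sum, LinearMap.sum_apply, rho_single, GF.b_single, one_mul]
  rw [Finset.sum_comm]
  refine Finset.sum_congr rfl ?_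
  rintro ⟨i, w⟩ -
  have h1 : (wrSys F).β ⟨w, ⟨i, x s i w⟩⟩
      (g • ⟨nf i (g⁻¹ * w), ⟨i, x t i (nf i (g⁻¹ * w))⟩⟩) = (F i).β (x s i w) (x t i (g⁻¹ * w)) := by
    simp only [wrSys, Pt.smul_def, nf, mul_assoc, mul_inv_cancel_left, inv_mul_cancel_left]
    rw [wrB_of, ← mul_assoc, heq, smul_inv_smul]
  rw [Finset.sum_eq_single (i, nf i (g⁻¹ * w)), h1]
  · rintro ⟨j, w'⟩ hv hne
    by_contra h2
    obtain ⟨h3, h4⟩ := (wrSys F).loc _ _ h2
    obtain rfl : i = j := h3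
    obtain ⟨c, hc⟩ := nf_eq_nf.1 (show nf i w = nf i (g * w') from h4)
    refine hne (Prod.ext rfl ?_)
    rw [← nf_mul_of _ c, mul_assoc, ← hc, inv_mul_cancel_left, nf_eq_self (hT _ hv)]
  · intro h2
    have h3 := h0 t i _ (not_St_nf i _) h2
    rw [h1, (F i).skew, neg_eq_zero, ← (F i).inv (hd i (g⁻¹ * w)⁻¹)⁻¹, ← heq]
    exact h3 _

/-- Components `x s i w` of two vectors at the vertices `w * H i` of the tree of the free product,
negligible outside the finite set `T` of vertices. If the two vectors form a hyperbolic pair for the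
sum of the forms, then one factor contains a hyperbolic pair. -/
theorem grushko_fun {p : ℕ} [Fact p.Prime] (hp : p ≠ 2) (F : ∀ i, GF (ZMod p) (H i) (S i))
    (add : ∀ i x y, ∃ z, ∀ t, (F i).β z t = (F i).β x t + (F i).β y t)
    (x : Bool → ∀ i, CoprodI H → S i)
    (heq : ∀ s i w (h : H i), x s i (w * of h) = h⁻¹ • x s i w) (T : Finset (ι × CoprodI H))
    (hT : ∀ v ∈ T, ¬ St v.1 v.2⁻¹)
    (h0 : ∀ s i w, ¬ St i w⁻¹ → (i, w) ∉ T → ∀ t, (F i).β (x s i w) t = 0)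
    (h1 : ∀ s t g, g ≠ 1 → ∑ v ∈ T, (F v.1).β (x s v.1 v.2) (x t v.1 (g⁻¹ * v.2)) = 0)
    (h2 : ∑ v ∈ T, (F v.1).β (x false v.1 v.2) (x true v.1 v.2) = 1) :
    ∃ (i : ι) (y : Bool → S i), (∀ s t (g : H i), g ≠ 1 → (F i).β (y s) (g • y t) = 0) ∧
      (F i).β (y false) (y true) = 1 := by
  have h3 : (2 : ZMod p) ≠ 0 := fun h =>
    hp ((Nat.prime_dvd_prime_iff_eq Fact.out Nat.prime_two).1
      ((ZMod.natCast_eq_zero_iff 2 p).1 (by exact_mod_cast h)))
  obtain ⟨i, v, hv, hW⟩ := Sys.grushko (F := wrSys F)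
    (x := fun s => ∑ v ∈ T, single ⟨v.2, ⟨v.1, x s v.1 v.2⟩⟩ 1) h3
    ⟨fun s t g hg => (wr_sum F x heq T hT h0 s t g).trans (h1 s t g hg),
      by simpa [h2] using wr_sum F x heq T hT h0 false true 1⟩
  choose y hy using fun s => wr_rep F (x false i 1) (add i) (hW s)
  have h4 : ∀ s t (g : H i), (wrSys F).b (v s) (rho (ZMod p) (CoprodI H) _ (of g) (v t)) =
      (F i).β (y s) (g • y t) := fun s t g => by
    rw [hy, ← inv_inv (of g), Sys.b_inv, hy, ← Sys.b_inv, inv_inv, rho_single, GF.b_single]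
    simp [wrSys, Pt.smul_def, wrB_of]
  exact ⟨i, y, fun s t g hg => (h4 s t g).symm.trans (hv.1 s t _ fun h => hg
    (of_injective i (h.trans (map_one _).symm))), by simpa [hv.2] using (h4 false true 1).symm⟩

end Pool.Agent.CSP
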